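import Mathlib

set_option autoImplicit false

/-!
# Tools for the Kullback-Leibler divergence
-/

namespace Pool.Agent.Lib.MP_ec2ab1_pr_h18

open MeasureTheory ProbabilityTheory InformationTheory
open scoped NNReal ENNReal

/-- change of the reference measure by an explicit positive density -/
theorem kl_change {α : Type*} [MeasurableSpace α] {μ ρ : Measure α} [IsProbabilityMeasure μ]
    [IsProbabilityMeasure ρ] {f : α → ℝ} (hf : Measurable f) (hpos : ∀ x, 0 < f x)
    (hp : IsProbabilityMeasure (ρ.withDensity fun x => ENNReal.ofReal (f x)))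
    (hi : Integrable (fun x => Real.log (f x)) μ)
    (h : klDiv μ (ρ.withDensity fun x => ENNReal.ofReal (f x)) ≠ ∞) :
    klDiv μ ρ ≠ ∞ ∧ (klDiv μ ρ).toReal =
      (klDiv μ (ρ.withDensity fun x => ENNReal.ofReal (f x))).toReal +
        ∫ x, Real.log (f x) ∂μ := by
  set ν : Measure α := ρ.withDensity fun x => ENNReal.ofReal (f x) with hν
  have hm : Measurable fun x => ENNReal.ofReal (f x) := hf.ennreal_ofReal
  obtain ⟨hac, hint⟩ := klDiv_ne_top_iff.1 h
  have hνρ : ν ≪ ρ := withDensity_absolutelyContinuous _ _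
  have hacρ : μ ≪ ρ := hac.trans hνρ
  have h1 : μ.rnDeriv ν * ν.rnDeriv ρ =ᵐ[ρ] μ.rnDeriv ρ := Measure.rnDeriv_mul_rnDeriv hac
  have h2 : ν.rnDeriv ρ =ᵐ[ρ] fun x => ENNReal.ofReal (f x) := Measure.rnDeriv_withDensity ρ hm
  have h3 : llr μ ρ =ᵐ[μ] fun x => llr μ ν x + Real.log (f x) := by
    filter_upwards [hacρ.ae_le h1, hacρ.ae_le h2, Measure.rnDeriv_pos hac,
      hac.ae_le (Measure.rnDeriv_lt_top μ ν)] with x a b c d
    rw [llr, llr, ← a, Pi.mul_apply, b, ENNReal.toReal_mul, ENNReal.toReal_ofReal (hpos x).le,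
      Real.log_mul (ENNReal.toReal_pos c.ne' d.ne).ne' (hpos x).ne']
  have h4 : Integrable (fun x => llr μ ν x + Real.log (f x)) μ := hint.add hi
  have h5 : Integrable (llr μ ρ) μ := (integrable_congr h3).2 h4
  refine ⟨klDiv_ne_top hacρ h5, ?_⟩
  rw [toReal_klDiv_of_measure_eq hacρ (by simp), toReal_klDiv_of_measure_eq hac (by simp),
    integral_congr_ae h3, integral_add hint hi]

/-- the divergence of an explicit density -/
theorem kl_withDensity {α : Type*} [MeasurableSpace α] {ρ : Measure α}
    [IsProbabilityMeasure ρ] {f : α → ℝ} (hf : Measurable f) (hpos : ∀ x, 0 < f x)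
    (hp : IsProbabilityMeasure (ρ.withDensity fun x => ENNReal.ofReal (f x)))
    (hi : Integrable (fun x => Real.log (f x)) (ρ.withDensity fun x => ENNReal.ofReal (f x))) :
    klDiv (ρ.withDensity fun x => ENNReal.ofReal (f x)) ρ ≠ ∞ ∧
      (klDiv (ρ.withDensity fun x => ENNReal.ofReal (f x)) ρ).toReal =
        ∫ x, Real.log (f x) ∂(ρ.withDensity fun x => ENNReal.ofReal (f x)) := by
  have h := kl_change hf hpos hp hi (by simp)
  simpa using h

/-- a measurable equivalence preserves the divergence -/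
theorem kl_map_equiv {α β : Type*} [MeasurableSpace α] [MeasurableSpace β] (μ ν : Measure α)
    [IsFiniteMeasure μ] [IsFiniteMeasure ν] (e : α ≃ᵐ β) :
    klDiv (μ.map e) (ν.map e) = klDiv μ ν := by
  refine le_antisymm (klDiv_map_le μ ν e.measurable) ?_
  have h := klDiv_map_le (μ.map e) (ν.map e) e.symm.measurable
  rw [Measure.map_map e.symm.measurable e.measurable,
    Measure.map_map e.symm.measurable e.measurable] at h
  simpa using h

/-- chain rule, second coordinate first -/
theorem kl_snd {α β : Type*} [MeasurableSpace α] [MeasurableSpace β] [StandardBorelSpace α]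
    [Nonempty α] (ω : Measure (α × β)) [IsProbabilityMeasure ω] (P : Measure α)
    [IsProbabilityMeasure P] (G : Measure β) [IsProbabilityMeasure G] :
    klDiv ω (P.prod G) = klDiv ω.snd G + klDiv ω (P.prod ω.snd) := by
  have hs : ∀ μ ν : Measure (α × β), IsFiniteMeasure μ → IsFiniteMeasure ν →
      klDiv (μ.map Prod.swap) (ν.map Prod.swap) = klDiv μ ν := by
    intro μ ν h1 h2
    exact kl_map_equiv μ ν MeasurableEquiv.prodComm
  set ω' : Measure (β × α) := ω.map Prod.swap with hω'
  have hpω : IsProbabilityMeasure ω' := Measure.isProbabilityMeasure_map (by fun_prop)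
  have hfst : ω'.fst = ω.snd := by
    rw [hω', Measure.fst_map_swap]
  have hpf : IsProbabilityMeasure ω.snd := inferInstance
  have hd : ω.snd ⊗ₘ ω'.condKernel = ω' := by
    rw [← hfst]
    exact ω'.disintegrate ω'.condKernel
  rw [← hs ω (P.prod G) inferInstance inferInstance,
    ← hs ω (P.prod ω.snd) inferInstance inferInstance, Measure.prod_swap, Measure.prod_swap,
    ← hω', ← hd, ← Measure.compProd_const, ← Measure.compProd_const]
  exact klDiv_compProd_eq_add _ _ _ _

end Pool.Agent.Lib.MP_ec2ab1_pr_h18
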