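import Mathlib
import Pool.Agent.Lib.MP_ec2ab1_pr_h18.Kl

set_option autoImplicit false

/-!
# Sheared products with Gaussian laws
-/

namespace Pool.Agent.Lib.MP_ec2ab1_pr_h18

open MeasureTheory ProbabilityTheory InformationTheory
open scoped NNReal ENNReal

/-- the centred Gaussian law of variance `v` -/
noncomputable abbrev G (v : ℝ≥0) : Measure ℝ := gaussianReal 0 v

/-- the shear `(y, v) ↦ (y, y + v)` -/
def sh : ℝ × ℝ ≃ᵐ ℝ × ℝ where
  toFun p := (p.1, p.1 + p.2)
  invFun p := (p.1, p.2 - p.1)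
  left_inv p := by simp
  right_inv p := by simp
  measurable_toFun := by
    simp only [Equiv.coe_fn_mk]
    fun_prop
  measurable_invFun := by
    simp only [Equiv.coe_fn_symm_mk]
    fun_prop

theorem sh_apply (p : ℝ × ℝ) : sh p = (p.1, p.1 + p.2) := rfl

/-- the ratio of densities -/
noncomputable def fr (a b : ℝ≥0) (p : ℝ × ℝ) : ℝ :=
  gaussianPDFReal 0 a (p.2 - p.1) / gaussianPDFReal 0 b p.2

theorem measurable_fr (a b : ℝ≥0) : Measurable (fr a b) := by
  unfold fr
  exact ((measurable_gaussianPDFReal 0 a).comp (measurable_snd.sub measurable_fst)).div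
    ((measurable_gaussianPDFReal 0 b).comp measurable_snd)

theorem fr_pos {a b : ℝ≥0} (ha : a ≠ 0) (hb : b ≠ 0) (p : ℝ × ℝ) : 0 < fr a b p :=
  div_pos (gaussianPDFReal_pos _ _ _ ha) (gaussianPDFReal_pos _ _ _ hb)

theorem log_fr {a b : ℝ≥0} (ha : a ≠ 0) (hb : b ≠ 0) (p : ℝ × ℝ) :
    Real.log (fr a b p) = Real.log (b / a) / 2 - (p.2 - p.1) ^ 2 / (2 * a) + p.2 ^ 2 / (2 * b) := by
  have ha' : (0 : ℝ) < a := by positivity
  have hb' : (0 : ℝ) < b := by positivity
  have h2 : ∀ v : ℝ≥0, v ≠ 0 → ∀ x : ℝ, Real.log (gaussianPDFReal 0 v x) =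
      -(Real.log (2 * Real.pi) + Real.log v) / 2 - x ^ 2 / (2 * v) := by
    intro v hv x
    have hv' : (0 : ℝ) < v := by positivity
    have h3 : 0 < Real.sqrt (2 * Real.pi * v) := Real.sqrt_pos.2 (by positivity)
    unfold gaussianPDFReal
    rw [Real.log_mul (inv_pos.2 h3).ne' (Real.exp_pos _).ne', Real.log_exp, Real.log_inv,
      Real.log_sqrt (by positivity), Real.log_mul (by positivity) hv'.ne', sub_zero]
    ring
  rw [fr, Real.log_div (gaussianPDFReal_pos _ _ _ ha).ne' (gaussianPDFReal_pos _ _ _ hb).ne',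
    h2 a ha, h2 b hb, Real.log_div hb'.ne' ha'.ne']
  ring

/-- the sheared product as an explicit density -/
theorem sh_prod (P : Measure ℝ) [IsProbabilityMeasure P] {a b : ℝ≥0} (ha : a ≠ 0) (hb : b ≠ 0) :
    (P.prod (G a)).map sh = (P.prod (G b)).withDensity fun p => ENNReal.ofReal (fr a b p) := by
  refine Measure.ext fun A hA => ?_
  have hm : Measurable fun p => ENNReal.ofReal (fr a b p) := (measurable_fr a b).ennreal_ofReal
  have hA1 : Measurable (A.indicator (1 : ℝ × ℝ → ℝ≥0∞)) := measurable_one.indicator hA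
  have hA2 : Measurable fun p : ℝ × ℝ => A.indicator (1 : ℝ × ℝ → ℝ≥0∞) (sh p) :=
    hA1.comp sh.measurable
  rw [← lintegral_indicator_one hA, lintegral_map hA1 sh.measurable,
    lintegral_prod _ hA2.aemeasurable, withDensity_apply _ hA,
    ← lintegral_indicator hA, lintegral_prod _ (hm.indicator hA).aemeasurable]
  refine lintegral_congr fun y => ?_
  have hA3 : Measurable fun w : ℝ => A.indicator (1 : ℝ × ℝ → ℝ≥0∞) (sh (y, w)) :=
    hA2.comp measurable_prodMk_left
  have hA4 : Measurable fun w : ℝ => A.indicator (fun p => ENNReal.ofReal (fr a b p)) (y, w) :=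
    (hm.indicator hA).comp measurable_prodMk_left
  rw [G, G, gaussianReal_of_var_ne_zero _ ha, gaussianReal_of_var_ne_zero _ hb,
    lintegral_withDensity_eq_lintegral_mul _ (measurable_gaussianPDF 0 a) hA3,
    lintegral_withDensity_eq_lintegral_mul _ (measurable_gaussianPDF 0 b) hA4]
  have h1 : ∀ w : ℝ, (gaussianPDF 0 a * fun w => A.indicator (1 : ℝ × ℝ → ℝ≥0∞) (sh (y, w))) w =
      (fun s => gaussianPDF 0 a (s - y) * A.indicator (1 : ℝ × ℝ → ℝ≥0∞) (y, s)) (w + y) := by
    intro w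
    simp only [Pi.mul_apply, sh_apply, add_sub_cancel_right]
    rw [add_comm w y]
  have h2 : ∫⁻ w, (gaussianPDF 0 a * fun w => A.indicator (1 : ℝ × ℝ → ℝ≥0∞) (sh (y, w))) w =
      ∫⁻ s, gaussianPDF 0 a (s - y) * A.indicator (1 : ℝ × ℝ → ℝ≥0∞) (y, s) := by
    simp only [h1]
    exact lintegral_add_right_eq_self
      (fun s => gaussianPDF 0 a (s - y) * A.indicator (1 : ℝ × ℝ → ℝ≥0∞) (y, s)) y
  refine h2.trans (lintegral_congr fun s => ?_)
  simp only [Pi.mul_apply]
  by_cases hs : (y, s) ∈ A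
  · simp only [Set.indicator_of_mem hs, Pi.one_apply, mul_one]
    rw [gaussianPDF, gaussianPDF, ← ENNReal.ofReal_mul (gaussianPDFReal_nonneg _ _ _), fr,
      mul_div_cancel₀ _ (gaussianPDFReal_pos _ _ _ hb).ne']
  · simp only [Set.indicator_of_notMem hs, mul_zero]

/-- the integral of the log of the ratio -/
theorem integral_log_fr {a b : ℝ≥0} (ha : a ≠ 0) (hb : b ≠ 0) (P V : Measure ℝ)
    [IsProbabilityMeasure P] [IsProbabilityMeasure V] (hP : MemLp (fun x : ℝ => x) 2 P)
    (hV : MemLp (fun x : ℝ => x) 2 V) (hP1 : ∫ x, x ∂P = 0) :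
    Integrable (fun p => Real.log (fr a b p)) ((P.prod V).map sh) ∧
      ∫ p, Real.log (fr a b p) ∂((P.prod V).map sh) =
        Real.log (b / a) / 2 - (∫ x, x ^ 2 ∂V) / (2 * a) +
          (∫ x, x ^ 2 ∂P + ∫ x, x ^ 2 ∂V) / (2 * b) := by
  have hm : Measurable fun p => Real.log (fr a b p) := (measurable_fr a b).log
  have iP : Integrable (fun x : ℝ => x) P := hP.integrable (by norm_num)
  have iV : Integrable (fun x : ℝ => x) V := hV.integrable (by norm_num)
  have iP2 : Integrable (fun x : ℝ => x ^ 2) P := hP.integrable_sq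
  have iV2 : Integrable (fun x : ℝ => x ^ 2) V := hV.integrable_sq
  have j1 : Integrable (fun p : ℝ × ℝ => p.1 ^ 2) (P.prod V) := iP2.comp_fst V
  have j2 : Integrable (fun p : ℝ × ℝ => p.2 ^ 2) (P.prod V) := iV2.comp_snd P
  have j3 : Integrable (fun p : ℝ × ℝ => p.1 * p.2) (P.prod V) := iP.mul_prod iV
  have e1 : ∫ p : ℝ × ℝ, p.1 ^ 2 ∂(P.prod V) = ∫ x, x ^ 2 ∂P := by
    have := integral_fun_fst (μ := P) (ν := V) (fun x : ℝ => x ^ 2)
    simpa using this
  have e2 : ∫ p : ℝ × ℝ, p.2 ^ 2 ∂(P.prod V) = ∫ x, x ^ 2 ∂V := by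
    have := integral_fun_snd (μ := P) (ν := V) (fun x : ℝ => x ^ 2)
    simpa using this
  have e3 : ∫ p : ℝ × ℝ, p.1 * p.2 ∂(P.prod V) = 0 := by
    rw [integral_prod_mul (fun x : ℝ => x) (fun x : ℝ => x), hP1, zero_mul]
  have hcomp : ∀ p : ℝ × ℝ, Real.log (fr a b (sh p)) =
      Real.log (b / a) / 2 + (1 / (2 * b)) * p.1 ^ 2 + (1 / b) * (p.1 * p.2) +
        (1 / (2 * b) - 1 / (2 * a)) * p.2 ^ 2 := by
    intro p
    have ha' : (a : ℝ) ≠ 0 := by positivity
    have hb' : (b : ℝ) ≠ 0 := by positivity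
    rw [log_fr ha hb, sh_apply]
    simp only [add_sub_cancel_left]
    field_simp
    ring
  have k0 : Integrable (fun _ : ℝ × ℝ => Real.log (b / a) / 2) (P.prod V) := integrable_const _
  have k1 := j1.const_mul (1 / (2 * (b : ℝ)))
  have k2 := j3.const_mul (1 / (b : ℝ))
  have k3 := j2.const_mul (1 / (2 * (b : ℝ)) - 1 / (2 * (a : ℝ)))
  constructor
  · rw [integrable_map_measure hm.aestronglyMeasurable sh.measurable.aemeasurable]
    have h : (fun p => Real.log (fr a b p)) ∘ sh = fun p : ℝ × ℝ =>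
      Real.log (b / a) / 2 + (1 / (2 * b)) * p.1 ^ 2 + (1 / b) * (p.1 * p.2) +
        (1 / (2 * b) - 1 / (2 * a)) * p.2 ^ 2 := by
      funext p
      exact hcomp p
    rw [h]
    exact ((k0.add k1).add k2).add k3
  · rw [integral_map sh.measurable.aemeasurable hm.aestronglyMeasurable]
    simp only [hcomp]
    have k01 : Integrable (fun p : ℝ × ℝ => Real.log (b / a) / 2 + (1 / (2 * b)) * p.1 ^ 2)
      (P.prod V) := k0.add k1
    have k012 : Integrable (fun p : ℝ × ℝ => Real.log (b / a) / 2 + (1 / (2 * b)) * p.1 ^ 2 +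
      (1 / b) * (p.1 * p.2)) (P.prod V) := k01.add k2
    rw [integral_add k012 k3, integral_add k01 k2, integral_add k0 k1, integral_const_mul,
      integral_const_mul, integral_const_mul, e1, e2, e3]
    simp only [integral_const, probReal_univ, smul_eq_mul, one_mul]
    ring

/-- the divergence of a product with a common factor -/
theorem kl_prod_left (P V G' : Measure ℝ) [IsProbabilityMeasure P] [IsProbabilityMeasure V]
    [IsProbabilityMeasure G'] : klDiv (P.prod V) (P.prod G') = klDiv V G' := by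
  have h : klDiv (V.prod P) (G'.prod P) = klDiv V G' := by
    rw [← Measure.compProd_const, ← Measure.compProd_const]
    exact klDiv_compProd_left _ _ _
  have h2 := kl_map_equiv (V.prod P) (G'.prod P) (MeasurableEquiv.prodComm (α := ℝ) (β := ℝ))
  have h3 : ∀ Q : Measure ℝ, IsProbabilityMeasure Q →
      (Q.prod P).map (MeasurableEquiv.prodComm (α := ℝ) (β := ℝ)) = P.prod Q := by
    intro Q hQ
    exact Measure.prod_swap
  rw [h3 V inferInstance, h3 G' inferInstance] at h2
  rw [h2, h]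

/-- `KL(law (Y, Y + V) ‖ P ⊗ N(0, b))` for a law `V` compared with `N(0, a)` -/
theorem kl_sh {a b : ℝ≥0} (ha : a ≠ 0) (hb : b ≠ 0) (P V : Measure ℝ)
    [IsProbabilityMeasure P] [IsProbabilityMeasure V] (hP : MemLp (fun x : ℝ => x) 2 P)
    (hV : MemLp (fun x : ℝ => x) 2 V) (hP1 : ∫ x, x ∂P = 0)
    (hfin : klDiv V (G a) ≠ ∞) :
    klDiv ((P.prod V).map sh) (P.prod (G b)) ≠ ∞ ∧
      (klDiv ((P.prod V).map sh) (P.prod (G b))).toReal = (klDiv V (G a)).toReal +
        (Real.log (b / a) / 2 - (∫ x, x ^ 2 ∂V) / (2 * a) +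
          (∫ x, x ^ 2 ∂P + ∫ x, x ^ 2 ∂V) / (2 * b)) := by
  have hp1 : IsProbabilityMeasure ((P.prod V).map sh) :=
    Measure.isProbabilityMeasure_map sh.measurable.aemeasurable
  have hp2 : IsProbabilityMeasure ((P.prod (G a)).map sh) :=
    Measure.isProbabilityMeasure_map sh.measurable.aemeasurable
  have h1 : klDiv ((P.prod V).map sh) ((P.prod (G a)).map sh) = klDiv V (G a) := by
    rw [kl_map_equiv, kl_prod_left]
  obtain ⟨hi, he⟩ := integral_log_fr ha hb P V hP hV hP1
  rw [sh_prod P ha hb] at h1 hp2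
  have h2 := kl_change (μ := (P.prod V).map sh) (ρ := P.prod (G b)) (measurable_fr a b)
    (fr_pos ha hb) hp2 hi (by rw [h1]; exact hfin)
  rw [h1, he] at h2
  exact h2

end Pool.Agent.Lib.MP_ec2ab1_pr_h18
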