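import Mathlib
import Pool.Agent.Lib.MP_ec2ab1_pr_h18.Shear

set_option autoImplicit false

/-!
# The a priori bound `2 D(X + W) ≤ D(X + Y) + (1/2) log (1 + 1 / (c (c + 2)))`, `W ~ N(0, c)`
-/

namespace Pool.Agent.Lib.MP_ec2ab1_pr_h18

open MeasureTheory ProbabilityTheory InformationTheory
open scoped NNReal ENNReal

/-- the law of the sum -/
noncomputable abbrev cv (μ ν : Measure ℝ) : Measure ℝ :=
  (μ.prod ν).map fun p : ℝ × ℝ => p.1 + p.2

theorem cv_eq_conv (μ ν : Measure ℝ) : cv μ ν = Measure.conv μ ν := rfl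

instance (μ ν : Measure ℝ) [IsProbabilityMeasure μ] [IsProbabilityMeasure ν] :
    IsProbabilityMeasure (cv μ ν) :=
  Measure.isProbabilityMeasure_map (by fun_prop)

theorem cv_G (a b : ℝ≥0) : cv (G a) (G b) = G (a + b) := by
  rw [cv_eq_conv, gaussianReal_conv_gaussianReal, add_zero]

theorem kl_prod_right {α : Type*} [MeasurableSpace α] (μ ν : Measure α) (Q : Measure ℝ)
    [IsProbabilityMeasure μ] [IsProbabilityMeasure ν] [IsProbabilityMeasure Q] :
    klDiv (μ.prod Q) (ν.prod Q) = klDiv μ ν := by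
  rw [← Measure.compProd_const, ← Measure.compProd_const]
  exact klDiv_compProd_left _ _ _

/-- data processing for the convolution -/
theorem kl_cv_le (μ ν Q : Measure ℝ) [IsProbabilityMeasure μ] [IsProbabilityMeasure ν]
    [IsProbabilityMeasure Q] : klDiv (cv μ Q) (cv ν Q) ≤ klDiv μ ν := by
  have h := klDiv_map_le (μ.prod Q) (ν.prod Q)
    (g := fun p : ℝ × ℝ => p.1 + p.2) (by fun_prop)
  rwa [kl_prod_right] at h

theorem snd_sh (P V : Measure ℝ) [IsProbabilityMeasure P] [IsProbabilityMeasure V] :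
    ((P.prod V).map sh).snd = cv P V := by
  rw [Measure.snd, Measure.map_map measurable_snd sh.measurable]
  rfl

/-- adding an independent variable to the second coordinate -/
def gg (q : (ℝ × ℝ) × ℝ) : ℝ × ℝ := (q.1.1, q.1.2 + q.2)

theorem measurable_gg : Measurable gg := by
  unfold gg
  fun_prop

theorem gg_sh (P V Q : Measure ℝ) [IsProbabilityMeasure P] [IsProbabilityMeasure V]
    [IsProbabilityMeasure Q] :
    ((((P.prod V).map sh).prod Q).map gg) = (P.prod (cv V Q)).map sh := by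
  have h1 : ((P.prod V).map sh).prod Q = ((P.prod V).prod Q).map (Prod.map sh id) := by
    have := Measure.map_prod_map (P.prod V) Q sh.measurable measurable_id
    rw [Measure.map_id] at this
    exact this
  have h2 : P.prod (cv V Q) = (P.prod (V.prod Q)).map (Prod.map id fun p : ℝ × ℝ => p.1 + p.2) := by
    have := Measure.map_prod_map P (V.prod Q) measurable_id
      (by fun_prop : Measurable fun p : ℝ × ℝ => p.1 + p.2)
    rw [Measure.map_id] at this
    exact this
  have h3 : P.prod (V.prod Q) = ((P.prod V).prod Q).map MeasurableEquiv.prodAssoc :=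
    (Measure.prodAssoc_prod (μ := P) (ν := V) (τ := Q)).symm
  have hm : Measurable (Prod.map id (fun p : ℝ × ℝ => p.1 + p.2) : ℝ × (ℝ × ℝ) → ℝ × ℝ) := by
    fun_prop
  have hm2 : Measurable (Prod.map sh (id : ℝ → ℝ)) :=
    (sh.measurable.comp measurable_fst).prodMk measurable_snd
  rw [h1, h2, h3, Measure.map_map measurable_gg hm2,
    Measure.map_map hm MeasurableEquiv.prodAssoc.measurable,
    Measure.map_map sh.measurable (hm.comp MeasurableEquiv.prodAssoc.measurable)]
  congr 1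
  funext q
  obtain ⟨⟨y, w⟩, x⟩ := q
  simp only [Function.comp, Prod.map, gg, sh_apply, id, MeasurableEquiv.prodAssoc,
    MeasurableEquiv.coe_mk, Equiv.prodAssoc_apply]
  rw [add_assoc]

theorem gg_prod (P V Q : Measure ℝ) [IsProbabilityMeasure P] [IsProbabilityMeasure V]
    [IsProbabilityMeasure Q] :
    (((P.prod V).prod Q).map gg) = P.prod (cv V Q) := by
  have h2 : P.prod (cv V Q) = (P.prod (V.prod Q)).map (Prod.map id fun p : ℝ × ℝ => p.1 + p.2) := by
    have := Measure.map_prod_map P (V.prod Q) measurable_id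
      (by fun_prop : Measurable fun p : ℝ × ℝ => p.1 + p.2)
    rw [Measure.map_id] at this
    exact this
  have h3 : P.prod (V.prod Q) = ((P.prod V).prod Q).map MeasurableEquiv.prodAssoc :=
    (Measure.prodAssoc_prod (μ := P) (ν := V) (τ := Q)).symm
  have hm : Measurable (Prod.map id (fun p : ℝ × ℝ => p.1 + p.2) : ℝ × (ℝ × ℝ) → ℝ × ℝ) := by
    fun_prop
  rw [h2, h3, Measure.map_map hm MeasurableEquiv.prodAssoc.measurable]
  congr 1

/-- the mutual information decreases when an independent variable is added -/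
theorem info_le (P V Q : Measure ℝ) [IsProbabilityMeasure P] [IsProbabilityMeasure V]
    [IsProbabilityMeasure Q] :
    klDiv ((P.prod (cv V Q)).map sh) (P.prod (cv P (cv V Q))) ≤
      klDiv ((P.prod V).map sh) (P.prod (cv P V)) := by
  have hp1 : IsProbabilityMeasure ((P.prod V).map sh) :=
    Measure.isProbabilityMeasure_map sh.measurable.aemeasurable
  have h := klDiv_map_le (((P.prod V).map sh).prod Q) ((P.prod (cv P V)).prod Q) measurable_gg
  rw [kl_prod_right, gg_sh, gg_prod] at h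
  have h2 : cv (cv P V) Q = cv P (cv V Q) := by
    rw [cv_eq_conv, cv_eq_conv, cv_eq_conv, cv_eq_conv, Measure.conv_assoc]
  rwa [h2] at h

variable {P : Measure ℝ} [IsProbabilityMeasure P]

theorem memLp_G (v : ℝ≥0) : MemLp (fun x : ℝ => x) 2 (G v) := memLp_id_gaussianReal 2

theorem mean_G (v : ℝ≥0) : ∫ x, x ∂(G v) = 0 := integral_id_gaussianReal

theorem second_G (v : ℝ≥0) : ∫ x, x ^ 2 ∂(G v) = v := by
  have h := variance_id_gaussianReal (μ := 0) (v := v)
  rw [variance_eq_integral (by fun_prop)] at h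
  simpa [integral_id_gaussianReal] using h

theorem memLp_cv {μ ν : Measure ℝ} [IsProbabilityMeasure μ] [IsProbabilityMeasure ν]
    (hμ : MemLp (fun x : ℝ => x) 2 μ) (hν : MemLp (fun x : ℝ => x) 2 ν) :
    MemLp (fun x : ℝ => x) 2 (cv μ ν) := by
  rw [memLp_map_measure_iff (by fun_prop) (by fun_prop)]
  exact (hμ.comp_fst ν).add (hν.comp_snd μ)

theorem second_cv {μ ν : Measure ℝ} [IsProbabilityMeasure μ] [IsProbabilityMeasure ν]
    (hμ : MemLp (fun x : ℝ => x) 2 μ) (hν : MemLp (fun x : ℝ => x) 2 ν) (h0 : ∫ x, x ∂μ = 0) :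
    ∫ x, x ^ 2 ∂(cv μ ν) = ∫ x, x ^ 2 ∂μ + ∫ x, x ^ 2 ∂ν := by
  rw [integral_map (by fun_prop) (by fun_prop)]
  have iP : Integrable (fun x : ℝ => x) μ := hμ.integrable (by norm_num)
  have iV : Integrable (fun x : ℝ => x) ν := hν.integrable (by norm_num)
  have j1 : Integrable (fun p : ℝ × ℝ => p.1 ^ 2) (μ.prod ν) := hμ.integrable_sq.comp_fst ν
  have j2 : Integrable (fun p : ℝ × ℝ => p.2 ^ 2) (μ.prod ν) := hν.integrable_sq.comp_snd μ
  have j3 : Integrable (fun p : ℝ × ℝ => p.1 * p.2) (μ.prod ν) := iP.mul_prod iV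
  have e1 : ∫ p : ℝ × ℝ, p.1 ^ 2 ∂(μ.prod ν) = ∫ x, x ^ 2 ∂μ := by
    have := integral_fun_fst (μ := μ) (ν := ν) (fun x : ℝ => x ^ 2)
    simpa using this
  have e2 : ∫ p : ℝ × ℝ, p.2 ^ 2 ∂(μ.prod ν) = ∫ x, x ^ 2 ∂ν := by
    have := integral_fun_snd (μ := μ) (ν := ν) (fun x : ℝ => x ^ 2)
    simpa using this
  have e3 : ∫ p : ℝ × ℝ, p.1 * p.2 ∂(μ.prod ν) = 0 := by
    rw [integral_prod_mul (fun x : ℝ => x) (fun x : ℝ => x), h0, zero_mul]
  have h : ∀ p : ℝ × ℝ, (p.1 + p.2) ^ 2 = p.1 ^ 2 + 2 * (p.1 * p.2) + p.2 ^ 2 := fun p => by ring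
  simp only [h]
  have k : Integrable (fun p : ℝ × ℝ => p.1 ^ 2 + 2 * (p.1 * p.2)) (μ.prod ν) :=
    j1.add (j3.const_mul 2)
  rw [integral_add k j2, integral_add j1 (j3.const_mul 2), integral_const_mul, e1, e2, e3]
  ring

/-- **A priori bound**, before data processing: for every law `P` of mean zero and variance one and
`W ~ N(0, c)`, `2 D(X + W ‖ N(0, 1 + c)) ≤ D(X + Y + W ‖ N(0, 2 + c)) +
(1/2) log ((1 + c)² / (c (2 + c)))`; all terms are finite. -/
theorem apriori_core (hP : MemLp (fun x : ℝ => x) 2 P) (h1 : ∫ x, x ∂P = 0)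
    (h2 : ∫ x, x ^ 2 ∂P = 1) {c : ℝ≥0} (hc : c ≠ 0) :
    klDiv (cv P (G c)) (G (1 + c)) ≠ ∞ ∧ klDiv (cv (cv P P) (G c)) (G (2 + c)) ≠ ∞ ∧
      2 * (klDiv (cv P (G c)) (G (1 + c))).toReal ≤
        (klDiv (cv (cv P P) (G c)) (G (2 + c))).toReal +
          Real.log ((1 + c) ^ 2 / (c * (2 + c))) / 2 := by
  have hc' : (0 : ℝ) < c := by positivity
  have hb : (1 + c : ℝ≥0) ≠ 0 := by positivity
  have hb2 : (2 + c : ℝ≥0) ≠ 0 := by positivity
  set V : Measure ℝ := cv P (G c) with hV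
  have hpV : IsProbabilityMeasure V := inferInstance
  have hVm : MemLp (fun x : ℝ => x) 2 V := memLp_cv hP (memLp_G c)
  have hV2 : ∫ x, x ^ 2 ∂V = 1 + c := by
    rw [hV, second_cv hP (memLp_G c) h1, h2, second_G]
  -- the pair (Y, Y + W)
  have hp0 : IsProbabilityMeasure ((P.prod (G c)).map sh) :=
    Measure.isProbabilityMeasure_map sh.measurable.aemeasurable
  have a1 := kl_sh hc hb P (G c) hP (memLp_G c) h1 (by simp)
  have a2 := kl_snd ((P.prod (G c)).map sh) P (G (1 + c))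
  rw [snd_sh, ← hV] at a2
  have a3 : klDiv V (G (1 + c)) ≠ ∞ := by
    intro h
    rw [h, top_add] at a2
    exact a1.1 a2
  have a4 : klDiv ((P.prod (G c)).map sh) (P.prod V) ≠ ∞ := by
    intro h
    rw [h, add_top] at a2
    exact a1.1 a2
  have a5 : (klDiv V (G (1 + c))).toReal + (klDiv ((P.prod (G c)).map sh) (P.prod V)).toReal =
      Real.log ((1 + c) / c) / 2 := by
    rw [← ENNReal.toReal_add a3 a4, ← a2, a1.2, klDiv_self, second_G, h2]
    push_cast
    rw [ENNReal.toReal_zero]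
    field_simp
    ring
  -- the pair (Y, Y + X + W)
  have hp1 : IsProbabilityMeasure ((P.prod V).map sh) :=
    Measure.isProbabilityMeasure_map sh.measurable.aemeasurable
  have b1 := kl_sh hb hb2 P V hP hVm h1 a3
  have b2 := kl_snd ((P.prod V).map sh) P (G (2 + c))
  rw [snd_sh] at b2
  have b3 : klDiv (cv P V) (G (2 + c)) ≠ ∞ := by
    intro h
    rw [h, top_add] at b2
    exact b1.1 b2
  have b4 : klDiv ((P.prod V).map sh) (P.prod (cv P V)) ≠ ∞ := by
    intro h
    rw [h, add_top] at b2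
    exact b1.1 b2
  have b5 : (klDiv (cv P V) (G (2 + c))).toReal +
      (klDiv ((P.prod V).map sh) (P.prod (cv P V))).toReal =
      (klDiv V (G (1 + c))).toReal + Real.log ((2 + c) / (1 + c)) / 2 := by
    rw [← ENNReal.toReal_add b3 b4, ← b2, b1.2, h2, hV2]
    push_cast
    have e1 : (1 + (c : ℝ)) ≠ 0 := by positivity
    have e2 : (2 + (c : ℝ)) ≠ 0 := by positivity
    have e3 : (1 + (c : ℝ)) / (2 * (1 + c)) = 1 / 2 := by field_simp
    have e4 : (1 + (1 + (c : ℝ))) / (2 * (2 + c)) = 1 / 2 := by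
      field_simp
      ring
    rw [e3, e4]
    ring
  -- data processing
  have hcomm : cv (G c) P = V := by
    rw [hV, cv_eq_conv, cv_eq_conv, Measure.conv_comm]
  have d1 := info_le P (G c) P
  rw [hcomm, ← hV] at d1
  have d1' := ENNReal.toReal_mono a4 d1
  have h3 : cv (cv P P) (G c) = cv P V := by
    rw [hV, cv_eq_conv, cv_eq_conv, cv_eq_conv, cv_eq_conv, Measure.conv_assoc]
  have l1 : Real.log ((1 + c) ^ 2 / (c * (2 + c))) =
      Real.log ((1 + c) / c) - Real.log ((2 + c) / (1 + c)) := by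
    rw [Real.log_div (by positivity) (by positivity), Real.log_div (by positivity) (by positivity),
      Real.log_div (by positivity) (by positivity), Real.log_mul (by positivity) (by positivity),
      Real.log_pow]
    push_cast
    ring
  rw [h3]
  refine ⟨a3, b3, ?_⟩
  rw [l1]
  linarith

/-- **A priori bound**: for every law `P` of mean zero and variance one and `W ~ N(0, c)`,
`2 D(X + W ‖ N(0, 1 + c)) ≤ D(X + Y ‖ N(0, 2)) + (1/2) log ((1 + c)² / (c (2 + c)))`. -/
theorem apriori (hP : MemLp (fun x : ℝ => x) 2 P) (h1 : ∫ x, x ∂P = 0) (h2 : ∫ x, x ^ 2 ∂P = 1)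
    {c : ℝ≥0} (hc : c ≠ 0) :
    klDiv (cv P (G c)) (G (1 + c)) ≠ ∞ ∧
      (klDiv (cv P P) (G 2) ≠ ∞ → 2 * (klDiv (cv P (G c)) (G (1 + c))).toReal ≤
        (klDiv (cv P P) (G 2)).toReal + Real.log ((1 + c) ^ 2 / (c * (2 + c))) / 2) := by
  obtain ⟨a1, _, a3⟩ := apriori_core hP h1 h2 hc
  refine ⟨a1, fun hU => a3.trans ?_⟩
  have d2 : klDiv (cv (cv P P) (G c)) (G (2 + c)) ≤ klDiv (cv P P) (G 2) := by
    have h := kl_cv_le (cv P P) (G 2) (G c)
    rwa [cv_G] at h
  have d2' := ENNReal.toReal_mono hU d2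
  linarith

end Pool.Agent.Lib.MP_ec2ab1_pr_h18
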