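import Mathlib
import Pool.Agent.Lib.MP_ec2ab1_pr_h18.Apriori

set_option autoImplicit false

/-!
# Superadditivity of the divergence and strong data processing for doubling the variance
-/

namespace Pool.Agent.Lib.MP_ec2ab1_pr_h18

open MeasureTheory ProbabilityTheory InformationTheory
open scoped NNReal ENNReal

/-- superadditivity of the divergence with respect to a product -/
theorem kl_superadd {α β : Type*} [MeasurableSpace α] [MeasurableSpace β] [StandardBorelSpace α]
    [Nonempty α] (ω : Measure (α × β)) [IsProbabilityMeasure ω] (P : Measure α)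
    [IsProbabilityMeasure P] (Q : Measure β) [IsProbabilityMeasure Q] :
    klDiv ω.fst P + klDiv ω.snd Q ≤ klDiv ω (P.prod Q) := by
  rw [kl_snd ω P Q, add_comm]
  refine add_le_add le_rfl ?_
  have h := klDiv_map_le ω (P.prod ω.snd) measurable_fst
  have h2 : (P.prod ω.snd).map Prod.fst = P := by
    rw [Measure.map_fst_prod]
    simp
  rw [h2] at h
  exact h

/-- sum and difference -/
noncomputable def sd : ℝ × ℝ ≃ᵐ ℝ × ℝ where
  toFun p := (p.1 + p.2, p.1 - p.2)
  invFun p := ((p.1 + p.2) / 2, (p.1 - p.2) / 2)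
  left_inv p := by
    ext
    · simp
    · simp only []
      ring
  right_inv p := by
    ext
    · simp only []
      ring
    · simp only []
      ring
  measurable_toFun := by
    simp only [Equiv.coe_fn_mk]
    fun_prop
  measurable_invFun := by
    simp only [Equiv.coe_fn_symm_mk]
    fun_prop

theorem sd_apply (p : ℝ × ℝ) : sd p = (p.1 + p.2, p.1 - p.2) := rfl

/-- rotation by 45 degrees -/
theorem rot_G (v : ℝ≥0) : ((G v).prod (G v)).map (fun p : ℝ × ℝ =>
    ((Real.sqrt 2)⁻¹ * p.1 + (Real.sqrt 2)⁻¹ * p.2, (Real.sqrt 2)⁻¹ * p.1 - (Real.sqrt 2)⁻¹ * p.2))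
    = (G v).prod (G v) := by
  have h0 : (G v)[id] = 0 := by
    simp [integral_id_gaussianReal]
  have h := IsGaussian.map_rotation_eq_self h0 (-(Real.pi / 4))
  have hsw : ((G v).prod (G v)).map Prod.swap = (G v).prod (G v) := Measure.prod_swap
  have hs : Real.sqrt 2 / 2 = (Real.sqrt 2)⁻¹ := by
    rw [div_eq_iff (by norm_num), eq_comm, inv_mul_eq_iff_eq_mul₀ (by positivity)]
    rw [Real.mul_self_sqrt (by norm_num)]
  conv_rhs => rw [← hsw, ← h]
  rw [Measure.map_map measurable_swap (by fun_prop)]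
  congr 1
  funext p
  simp only [Function.comp, ContinuousLinearMap.rotation_apply, Real.cos_neg, Real.sin_neg,
    Real.cos_pi_div_four, Real.sin_pi_div_four, smul_eq_mul, Prod.swap_prod_mk, hs]
  ext
  · simp
  · simp only []
    ring

theorem G_scale (v : ℝ≥0) : (G v).map (fun x => Real.sqrt 2 * x) = G (2 * v) := by
  rw [gaussianReal_map_const_mul, mul_zero]
  simp only [Real.sq_sqrt (show (0 : ℝ) ≤ 2 by norm_num)]
  congr 1

theorem sd_G (v : ℝ≥0) : ((G v).prod (G v)).map sd = (G (2 * v)).prod (G (2 * v)) := by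
  have h2 : Measurable (fun x : ℝ => Real.sqrt 2 * x) := by fun_prop
  rw [← G_scale, Measure.map_prod_map _ _ h2 h2, ← rot_G v,
    Measure.map_map (h2.prodMap h2) (by fun_prop), rot_G v]
  congr 1
  funext p
  have hs : Real.sqrt 2 ≠ 0 := by positivity
  rw [sd_apply]
  simp only [Function.comp, Prod.map]
  ext
  · simp only []
    field_simp
  · simp only []
    field_simp

theorem kl_half (U : Measure ℝ) [IsProbabilityMeasure U] (v : ℝ≥0) :
    2 * klDiv (cv U (G v)) (G (2 * v)) ≤ klDiv U (G v) := by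
  have hp : IsProbabilityMeasure ((U.prod (G v)).map sd) :=
    Measure.isProbabilityMeasure_map sd.measurable.aemeasurable
  have h1 : klDiv ((U.prod (G v)).map sd) ((G (2 * v)).prod (G (2 * v))) = klDiv U (G v) := by
    rw [← sd_G, kl_map_equiv, kl_prod_right]
  have h2 := kl_superadd ((U.prod (G v)).map sd) (G (2 * v)) (G (2 * v))
  have h3 : ((U.prod (G v)).map sd).fst = cv U (G v) := by
    rw [Measure.fst, Measure.map_map measurable_fst sd.measurable]
    rfl
  have h4 : ((U.prod (G v)).map sd).snd = cv U (G v) := by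
    rw [Measure.snd, Measure.map_map measurable_snd sd.measurable]
    have hneg : (G v).map (fun x => -x) = G v := by
      rw [gaussianReal_map_neg, neg_zero]
    have h5 : U.prod (G v) = (U.prod (G v)).map (Prod.map id fun x : ℝ => -x) := by
      have := Measure.map_prod_map U (G v) measurable_id (measurable_neg : Measurable fun x : ℝ => -x)
      rw [Measure.map_id, hneg] at this
      exact this
    conv_lhs => rw [h5]
    rw [Measure.map_map (measurable_snd.comp sd.measurable)
      (measurable_id.prodMap measurable_neg)]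
    congr 1
    funext p
    simp only [Function.comp, Prod.map, sd_apply, id, sub_neg_eq_add]
  rw [h3, h4, h1, ← two_mul] at h2
  exact h2

/-- **A priori bound for `c ≥ 2`**: `2 D(X + W) ≤ (1/2) D(X + Y) + (1/2) log ((1+c)² / (c (2+c)))`. -/
theorem apriori_two {P : Measure ℝ} [IsProbabilityMeasure P] (hP : MemLp (fun x : ℝ => x) 2 P)
    (h1 : ∫ x, x ∂P = 0) (h2 : ∫ x, x ^ 2 ∂P = 1) {c : ℝ≥0} (hc : 2 ≤ c)
    (hU : klDiv (cv P P) (G 2) ≠ ∞) :
    2 * (klDiv (cv P (G c)) (G (1 + c))).toReal ≤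
      (klDiv (cv P P) (G 2)).toReal / 2 + Real.log ((1 + c) ^ 2 / (c * (2 + c))) / 2 := by
  have hc0 : c ≠ 0 := (lt_of_lt_of_le (by norm_num) hc).ne'
  obtain ⟨_, a2, a3⟩ := apriori_core hP h1 h2 hc0
  have h := kl_half (cv P P) 2
  have hcc : cv (cv P P) (G c) = cv (cv (cv P P) (G 2)) (G (c - 2)) := by
    have e : G c = cv (G 2) (G (c - 2)) := by
      rw [cv_G, add_tsub_cancel_of_le hc]
    rw [e, cv_eq_conv (cv P P) (cv (G 2) (G (c - 2))), cv_eq_conv (G 2) (G (c - 2)),
      cv_eq_conv (cv (cv P P) (G 2)) (G (c - 2)), cv_eq_conv (cv P P) (G 2), Measure.conv_assoc]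
  have h4 : klDiv (cv (cv P P) (G c)) (G (2 + c)) ≤ klDiv (cv (cv P P) (G 2)) (G (2 * 2)) := by
    have h5 := kl_cv_le (cv (cv P P) (G 2)) (G (2 * 2)) (G (c - 2))
    rw [cv_G, ← hcc] at h5
    have e : (2 * 2 + (c - 2) : ℝ≥0) = 2 + c := by
      have := add_tsub_cancel_of_le hc
      calc (2 * 2 + (c - 2) : ℝ≥0) = 2 + (2 + (c - 2)) := by ring
        _ = 2 + c := by rw [this]
    rwa [e] at h5
  have h6 : 2 * klDiv (cv (cv P P) (G c)) (G (2 + c)) ≤ klDiv (cv P P) (G 2) :=
    (mul_le_mul_right h4 2).trans h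
  have h7 := ENNReal.toReal_mono hU h6
  rw [ENNReal.toReal_mul] at h7
  have h8 : (2 : ℝ≥0∞).toReal = 2 := by simp
  rw [h8] at h7
  linarith

end Pool.Agent.Lib.MP_ec2ab1_pr_h18
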