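import Mathlib

set_option autoImplicit false

/-!
# Lower bounds of the Kullback-Leibler divergence by test functions
-/

namespace Pool.Agent.Lib.MP_ec2ab1_pr_h18

open MeasureTheory ProbabilityTheory InformationTheory Set
open scoped NNReal ENNReal

set_option linter.unusedSectionVars false

/-! ### Two inequalities for `klFun` -/

theorem mul_log_ge {u : ℝ} (hu : 1 ≤ u) : 2 * (u - 1) ≤ (u + 1) * Real.log u := by
  have h := Real.le_log_one_add_of_nonneg (x := u - 1) (by linarith)
  rw [div_le_iff₀ (by linarith)] at h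
  have e1 : 1 + (u - 1) = u := by ring
  have e2 : u - 1 + 2 = u + 1 := by ring
  rw [e1, e2] at h
  linarith

theorem mul_log_le {u : ℝ} (h0 : 0 < u) (hu : u ≤ 1) : (u + 1) * Real.log u ≤ 2 * (u - 1) := by
  have h := mul_log_ge (u := u⁻¹) ((one_le_inv₀ h0).2 hu)
  rw [Real.log_inv] at h
  have h1 := mul_le_mul_of_nonneg_left h h0.le
  have e1 : u * (2 * (u⁻¹ - 1)) = 2 * (1 - u) := by field_simp
  have e2 : u * ((u⁻¹ + 1) * -Real.log u) = -((u + 1) * Real.log u) := by
    field_simp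
    ring
  rw [e1, e2] at h1
  linarith

/-- the function `(u + 2) klFun u - (3/2) (u - 1)²` -/
private noncomputable def qf (u : ℝ) : ℝ := (u + 2) * klFun u - 3 / 2 * (u - 1) ^ 2

private theorem continuous_qf : Continuous qf := by
  unfold qf
  exact ((continuous_id.add continuous_const).mul continuous_klFun).sub
    (continuous_const.mul ((continuous_id.sub continuous_const).pow 2))

private theorem hasDerivAt_qf {u : ℝ} (hu : u ≠ 0) :
    HasDerivAt qf (2 * ((u + 1) * Real.log u - 2 * (u - 1))) u := by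
  have h1 : HasDerivAt (fun u : ℝ => (u + 2) * klFun u) (1 * klFun u + (u + 2) * Real.log u) u :=
    ((hasDerivAt_id u).add_const 2).mul (hasDerivAt_klFun hu)
  have h2 : HasDerivAt (fun u : ℝ => 3 / 2 * (u - 1) ^ 2) (3 / 2 * (2 * (u - 1))) u := by
    have h4 : HasDerivAt (fun u : ℝ => (u - 1) ^ 2) ((2 : ℕ) * (u - 1) ^ (2 - 1) * 1) u :=
      ((hasDerivAt_id u).sub_const 1).pow 2
    have h5 := h4.const_mul (3 / 2 : ℝ)
    have e : (3 / 2 : ℝ) * ((2 : ℕ) * (u - 1) ^ (2 - 1) * 1) = 3 / 2 * (2 * (u - 1)) := by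
      norm_num
    rwa [e] at h5
  have h3 : HasDerivAt qf
      (1 * klFun u + (u + 2) * Real.log u - 3 / 2 * (2 * (u - 1))) u := h1.sub h2
  have e : 1 * klFun u + (u + 2) * Real.log u - 3 / 2 * (2 * (u - 1)) =
      2 * ((u + 1) * Real.log u - 2 * (u - 1)) := by
    rw [klFun_apply]
    ring
  rwa [e] at h3

/-- `klFun u ≥ (3/2) (u - 1)² / (u + 2)` -/
theorem klFun_ge {u : ℝ} (hu : 0 ≤ u) : 3 / 2 * (u - 1) ^ 2 ≤ (u + 2) * klFun u := by
  have h1 : qf 1 = 0 := by simp [qf, klFun_one]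
  suffices h : 0 ≤ qf u by
    unfold qf at h
    linarith
  rcases le_total u 1 with h | h
  · have ha : AntitoneOn qf (Icc 0 1) := by
      refine antitoneOn_of_deriv_nonpos (convex_Icc 0 1) continuous_qf.continuousOn ?_ ?_
      · intro x hx
        rw [interior_Icc] at hx
        exact (hasDerivAt_qf hx.1.ne').differentiableAt.differentiableWithinAt
      · intro x hx
        rw [interior_Icc] at hx
        rw [(hasDerivAt_qf hx.1.ne').deriv]
        have := mul_log_le hx.1 hx.2.le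
        linarith
    have := ha ⟨hu, h⟩ ⟨zero_le_one, le_refl 1⟩ h
    rwa [h1] at this
  · have hm : MonotoneOn qf (Ici 1) := by
      refine monotoneOn_of_deriv_nonneg (convex_Ici 1) continuous_qf.continuousOn ?_ ?_
      · intro x hx
        rw [interior_Ici] at hx
        have hx0 : x ≠ 0 := by
          have : (1 : ℝ) < x := hx
          linarith
        exact (hasDerivAt_qf hx0).differentiableAt.differentiableWithinAt
      · intro x hx
        rw [interior_Ici] at hx
        have hx1 : (1 : ℝ) < x := hx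
        have hx0 : x ≠ 0 := by linarith
        rw [(hasDerivAt_qf hx0).deriv]
        have := mul_log_ge hx1.le
        linarith
    have := hm (mem_Ici.2 (le_refl 1)) (mem_Ici.2 h) h
    rwa [h1] at this

/-- Young's inequality -/
theorem mul_le_klFun_add {u : ℝ} (hu : 0 ≤ u) (a : ℝ) : u * a ≤ klFun u + (Real.exp a - 1) := by
  rcases hu.eq_or_lt with h | h
  · rw [← h, zero_mul, klFun_zero]
    have := Real.exp_pos a
    linarith
  · rw [klFun_apply]
    have h1 := Real.add_one_le_exp (a - Real.log u)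
    rw [Real.exp_sub, Real.exp_log h, le_div_iff₀ h] at h1
    linarith

/-! ### Test functions -/

variable {α : Type*} [MeasurableSpace α] {μ ν : Measure α} [IsProbabilityMeasure μ]
  [IsProbabilityMeasure ν]

theorem kl_ac (h : klDiv μ ν ≠ ∞) : μ ≪ ν := (klDiv_ne_top_iff.1 h).1

theorem integrable_klFun (h : klDiv μ ν ≠ ∞) :
    Integrable (fun x => klFun (μ.rnDeriv ν x).toReal) ν :=
  (integrable_klFun_rnDeriv_iff (kl_ac h)).2 (klDiv_ne_top_iff.1 h).2

/-- if `exp |g|` is integrable for `ν` then `g` is integrable for `μ` -/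
theorem integrable_of_exp (h : klDiv μ ν ≠ ∞) {g : α → ℝ} (hg : Measurable g)
    (he : Integrable (fun x => Real.exp |g x|) ν) : Integrable g μ := by
  rw [← integrable_rnDeriv_smul_iff (kl_ac h)]
  have h1 : Integrable (fun x => klFun (μ.rnDeriv ν x).toReal + (Real.exp |g x| - 1)) ν :=
    (integrable_klFun h).add (he.sub (integrable_const 1))
  refine h1.mono' ((Measure.measurable_rnDeriv μ ν).ennreal_toReal.smul hg).aestronglyMeasurable
    (ae_of_all _ fun x => ?_)
  rw [norm_smul, Real.norm_eq_abs, Real.norm_eq_abs, abs_of_nonneg ENNReal.toReal_nonneg]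
  exact mul_le_klFun_add ENNReal.toReal_nonneg _

/-- **Young's inequality** for test functions -/
theorem young_le (h : klDiv μ ν ≠ ∞) {g : α → ℝ} (he : Integrable (fun x => Real.exp (g x)) ν)
    (hg : Integrable g μ) :
    ∫ x, g x ∂μ ≤ (klDiv μ ν).toReal + ∫ x, (Real.exp (g x) - 1) ∂ν := by
  have h0 := kl_ac h
  have i1 : Integrable (fun x => Real.exp (g x) - 1) ν := he.sub (integrable_const 1)
  have i2 : Integrable (fun x => klFun (μ.rnDeriv ν x).toReal + (Real.exp (g x) - 1)) ν :=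
    (integrable_klFun h).add i1
  rw [toReal_klDiv_eq_integral_klFun h0, ← integral_rnDeriv_smul h0,
    ← integral_add (integrable_klFun h) i1]
  refine integral_mono ((integrable_rnDeriv_smul_iff h0).2 hg) i2 fun x => ?_
  exact mul_le_klFun_add ENNReal.toReal_nonneg _

/-- Young's inequality, centred -/
theorem young_sub_le (h : klDiv μ ν ≠ ∞) {g : α → ℝ}
    (he : Integrable (fun x => Real.exp (g x)) ν) (hg : Integrable g μ) (hgν : Integrable g ν) :
    ∫ x, g x ∂μ - ∫ x, g x ∂ν ≤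
      (klDiv μ ν).toReal + ∫ x, (Real.exp (g x) - 1 - g x) ∂ν := by
  have h1 := young_le h he hg
  have h2 : ∫ x, (Real.exp (g x) - 1 - g x) ∂ν = ∫ x, (Real.exp (g x) - 1) ∂ν - ∫ x, g x ∂ν :=
    integral_sub (he.sub (integrable_const 1)) hgν
  rw [h2]
  linarith

/-- the **Donsker-Varadhan** inequality -/
theorem dv_le (h : klDiv μ ν ≠ ∞) {g : α → ℝ} (he : Integrable (fun x => Real.exp (g x)) ν)
    (hg : Integrable g μ) :
    ∫ x, g x ∂μ ≤ (klDiv μ ν).toReal + Real.log (∫ x, Real.exp (g x) ∂ν) := by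
  set Z := ∫ x, Real.exp (g x) ∂ν with hZ
  have hZ0 : 0 < Z := integral_exp_pos he
  have h1 := young_le (g := fun x => g x - Real.log Z) h (by
    simp only [Real.exp_sub]
    exact he.div_const _) (hg.sub (integrable_const _))
  have h2 : ∫ x, (g x - Real.log Z) ∂μ = ∫ x, g x ∂μ - Real.log Z := by
    rw [integral_sub hg (integrable_const _), integral_const]
    simp
  have h3 : ∫ x, (Real.exp (g x - Real.log Z) - 1) ∂ν = 0 := by
    simp only [Real.exp_sub, Real.exp_log hZ0]
    rw [integral_sub (he.div_const _) (integrable_const _), integral_div, ← hZ, div_self hZ0.ne',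
      integral_const]
    simp
  rw [h2, h3] at h1
  linarith

/-- **Quadratic inequality** -/
theorem quad_le (h : klDiv μ ν ≠ ∞) {g : α → ℝ} (hg : Measurable g)
    (h2μ : Integrable (fun x => g x ^ 2) μ) (h2ν : Integrable (fun x => g x ^ 2) ν) :
    (∫ x, g x ∂μ - ∫ x, g x ∂ν) ^ 2 ≤
      2 / 3 * (klDiv μ ν).toReal * (∫ x, g x ^ 2 ∂μ + 2 * ∫ x, g x ^ 2 ∂ν) := by
  have h0 := kl_ac h
  have iμ : Integrable g μ :=
    ((memLp_two_iff_integrable_sq hg.aestronglyMeasurable).2 h2μ).integrable one_le_two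
  have iν : Integrable g ν :=
    ((memLp_two_iff_integrable_sq hg.aestronglyMeasurable).2 h2ν).integrable one_le_two
  set f : α → ℝ := fun x => (μ.rnDeriv ν x).toReal with hf
  have hf0 : ∀ x, 0 ≤ f x := fun x => ENNReal.toReal_nonneg
  have jμ : Integrable (fun x => f x * g x) ν := (integrable_rnDeriv_smul_iff h0).2 iμ
  have j2μ : Integrable (fun x => f x * g x ^ 2) ν := (integrable_rnDeriv_smul_iff h0).2 h2μ
  have e1 : ∫ x, g x ∂μ = ∫ x, f x * g x ∂ν := (integral_rnDeriv_smul h0).symm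
  have e2 : ∫ x, g x ^ 2 ∂μ = ∫ x, f x * g x ^ 2 ∂ν := (integral_rnDeriv_smul h0).symm
  set A := ∫ x, g x ∂μ - ∫ x, g x ∂ν with hA
  set B := ∫ x, g x ^ 2 ∂μ + 2 * ∫ x, g x ^ 2 ∂ν with hB
  set D := (klDiv μ ν).toReal with hD
  have eA : A = ∫ x, (f x * g x - g x) ∂ν := by rw [hA, e1, integral_sub jμ iν]
  have eB : B = ∫ x, (f x * g x ^ 2 + 2 * g x ^ 2) ∂ν := by
    rw [hB, e2, integral_add j2μ (h2ν.const_mul 2), integral_const_mul]
  have eD : D = ∫ x, klFun (f x) ∂ν := toReal_klDiv_eq_integral_klFun h0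
  have key : ∀ l : ℝ, 0 ≤ B / 2 * (l * l) + -A * l + D / 3 := by
    intro l
    have n1 : Integrable (fun x => l * (f x * g x - g x)) ν := (jμ.sub iν).const_mul l
    have n2 : Integrable (fun x => l ^ 2 / 2 * (f x * g x ^ 2 + 2 * g x ^ 2)) ν :=
      (j2μ.add (h2ν.const_mul 2)).const_mul _
    have n3 : Integrable (fun x => klFun (f x) / 3) ν := (integrable_klFun h).div_const _
    have n4 : Integrable (fun x => l ^ 2 / 2 * (f x * g x ^ 2 + 2 * g x ^ 2) + klFun (f x) / 3) ν :=
      n2.add n3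
    have h1 : l * A ≤ l ^ 2 / 2 * B + D / 3 := by
      rw [eA, eB, eD, ← integral_const_mul, ← integral_const_mul, ← integral_div,
        ← integral_add n2 n3]
      refine integral_mono n1 n4 fun x => ?_
      have k1 := klFun_ge (hf0 x)
      have k2 := hf0 x
      have k3 : 0 < f x + 2 := by linarith
      have k4 : 0 ≤ klFun (f x) := klFun_nonneg (hf0 x)
      have k5 : (f x - 1) ^ 2 / (2 * (f x + 2)) ≤ klFun (f x) / 3 := by
        rw [div_le_div_iff₀ (by positivity) (by norm_num)]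
        nlinarith
      have k6 : l * (f x * g x - g x) ≤
          l ^ 2 / 2 * (f x * g x ^ 2 + 2 * g x ^ 2) + (f x - 1) ^ 2 / (2 * (f x + 2)) := by
        have : l ^ 2 / 2 * (f x * g x ^ 2 + 2 * g x ^ 2) + (f x - 1) ^ 2 / (2 * (f x + 2)) -
            l * (f x * g x - g x) = (l * g x * (f x + 2) - (f x - 1)) ^ 2 / (2 * (f x + 2)) := by
          field_simp
          ring
        have h9 : 0 ≤ (l * g x * (f x + 2) - (f x - 1)) ^ 2 / (2 * (f x + 2)) := by positivity
        linarith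
      simp only [] at k6 ⊢
      linarith
    linarith
  have hdis := discrim_le_zero key
  unfold discrim at hdis
  nlinarith

/-- the quadratic inequality for bounded functions, Pinsker's inequality -/
theorem pinsker_le (h : klDiv μ ν ≠ ∞) {g : α → ℝ} (hg : Measurable g) {M : ℝ}
    (hM : ∀ x, |g x| ≤ M) :
    (∫ x, g x ∂μ - ∫ x, g x ∂ν) ^ 2 ≤ 2 * M ^ 2 * (klDiv μ ν).toReal := by
  have hb : ∀ x, g x ^ 2 ≤ M ^ 2 := fun x => sq_le_sq' (abs_le.1 (hM x)).1 (abs_le.1 (hM x)).2
  have hbn : ∀ x, ‖g x ^ 2‖ ≤ M ^ 2 := fun x => by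
    rw [Real.norm_eq_abs, abs_of_nonneg (sq_nonneg _)]
    exact hb x
  have i1 : Integrable (fun x => g x ^ 2) μ :=
    Integrable.of_bound (hg.pow_const 2).aestronglyMeasurable (M ^ 2) (ae_of_all _ hbn)
  have i2 : Integrable (fun x => g x ^ 2) ν :=
    Integrable.of_bound (hg.pow_const 2).aestronglyMeasurable (M ^ 2) (ae_of_all _ hbn)
  have h1 := quad_le h hg i1 i2
  have h2 : ∫ x, g x ^ 2 ∂μ ≤ M ^ 2 := by
    calc ∫ x, g x ^ 2 ∂μ ≤ ∫ _x, M ^ 2 ∂μ := integral_mono i1 (integrable_const _) hb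
      _ = M ^ 2 := by simp
  have h3 : ∫ x, g x ^ 2 ∂ν ≤ M ^ 2 := by
    calc ∫ x, g x ^ 2 ∂ν ≤ ∫ _x, M ^ 2 ∂ν := integral_mono i2 (integrable_const _) hb
      _ = M ^ 2 := by simp
  have h4 : 0 ≤ (klDiv μ ν).toReal := ENNReal.toReal_nonneg
  nlinarith [mul_le_mul_of_nonneg_left h2 h4, mul_le_mul_of_nonneg_left h3 h4]

end Pool.Agent.Lib.MP_ec2ab1_pr_h18
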