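import Mathlib
import Pool.Agent.Lib.MP_ec2ab1_pr_h18.Dual

set_option autoImplicit false

/-!
# Characteristic functions and the Kullback-Leibler divergence
-/

namespace Pool.Agent.Lib.MP_ec2ab1_pr_h18

open MeasureTheory ProbabilityTheory InformationTheory Set Complex
open scoped NNReal ENNReal ComplexConjugate

/-- the real part of `conj w * exp (i t x)` -/
noncomputable def rg (w : ℂ) (t x : ℝ) : ℝ := (conj w * cexp (t * x * I)).re

theorem measurable_rg (w : ℂ) (t : ℝ) : Measurable (rg w t) := by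
  unfold rg
  fun_prop

theorem norm_exp_I (t x : ℝ) : ‖cexp (t * x * I)‖ = 1 := by
  have : ((t : ℂ) * x * I) = ((t * x : ℝ) : ℂ) * I := by push_cast; ring
  rw [this, norm_exp_ofReal_mul_I]

theorem abs_rg_le {w : ℂ} (hw : ‖w‖ = 1) (t x : ℝ) : |rg w t x| ≤ 1 := by
  unfold rg
  refine (abs_re_le_norm _).trans ?_
  rw [norm_mul, RCLike.norm_conj, hw, norm_exp_I, mul_one]

variable {μ ν : Measure ℝ} [IsProbabilityMeasure μ] [IsProbabilityMeasure ν]

theorem integrable_exp_I (μ : Measure ℝ) [IsProbabilityMeasure μ] (t : ℝ) :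
    Integrable (fun x : ℝ => cexp (t * x * I)) μ := by
  refine Integrable.of_bound ?_ 1 (ae_of_all _ fun x => (norm_exp_I t x).le)
  exact (by fun_prop : Measurable fun x : ℝ => cexp (t * x * I)).aestronglyMeasurable

theorem integral_rg (μ : Measure ℝ) [IsProbabilityMeasure μ] (w : ℂ) (t : ℝ) :
    ∫ x, rg w t x ∂μ = (conj w * charFun μ t).re := by
  have h1 : Integrable (fun x : ℝ => conj w * cexp (t * x * I)) μ :=
    (integrable_exp_I μ t).const_mul _
  have h2 : ∫ x, rg w t x ∂μ = (∫ x, conj w * cexp (t * x * I) ∂μ).re :=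
    (integral_re (𝕜 := ℂ) h1)
  rw [h2, integral_const_mul, charFun_apply_real]

theorem integrable_rg (μ : Measure ℝ) [IsProbabilityMeasure μ] (w : ℂ) (t : ℝ) :
    Integrable (rg w t) μ :=
  ((integrable_exp_I μ t).const_mul (conj w)).re

/-- a unit vector `w` with `conj w * z = ‖z‖` -/
theorem exists_unit (z : ℂ) : ∃ w : ℂ, ‖w‖ = 1 ∧ (conj w * z).re = ‖z‖ := by
  by_cases hz : z = 0
  · exact ⟨1, by simp, by simp [hz]⟩
  · have hz' : (‖z‖ : ℂ) ≠ 0 := by exact_mod_cast norm_ne_zero_iff.2 hz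
    refine ⟨z / ‖z‖, ?_, ?_⟩
    · rw [norm_div, norm_real, norm_norm, div_self (norm_ne_zero_iff.2 hz)]
    · have : conj (z / (‖z‖ : ℂ)) * z = (‖z‖ : ℂ) := by
        rw [map_div₀, conj_ofReal, div_mul_eq_mul_div, mul_comm, mul_conj, normSq_eq_norm_sq]
        push_cast
        field_simp
      rw [this, ofReal_re]

/-- `|φ_μ(t) - φ_ν(t)|² ≤ 2 D` -/
theorem norm_charFun_sub_sq_le (h : klDiv μ ν ≠ ∞) (t : ℝ) :
    ‖charFun μ t - charFun ν t‖ ^ 2 ≤ 2 * (klDiv μ ν).toReal := by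
  obtain ⟨w, hw, hz⟩ := exists_unit (charFun μ t - charFun ν t)
  have h1 := pinsker_le h (measurable_rg w t) (abs_rg_le hw t)
  rw [integral_rg, integral_rg, ← sub_re, ← mul_sub, hz] at h1
  linarith

theorem norm_charFun_sub_le (h : klDiv μ ν ≠ ∞) (t : ℝ) :
    ‖charFun μ t - charFun ν t‖ ≤ Real.sqrt (2 * (klDiv μ ν).toReal) :=
  Real.le_sqrt_of_sq_le (norm_charFun_sub_sq_le h t)

theorem rg_sq {w : ℂ} (hw : ‖w‖ = 1) (t x : ℝ) :
    rg w t x ^ 2 = (1 + rg (w ^ 2) (2 * t) x) / 2 := by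
  unfold rg
  set z := conj w * cexp (t * x * I) with hz
  have h1 : ‖z‖ = 1 := by rw [hz, norm_mul, RCLike.norm_conj, hw, norm_exp_I, mul_one]
  have h2 : conj (w ^ 2) * cexp ((2 * t : ℝ) * x * I) = z ^ 2 := by
    rw [hz, mul_pow, map_pow, ← Complex.exp_nat_mul]
    congr 2
    push_cast
    ring
  rw [h2]
  have h3 : z.re ^ 2 + z.im ^ 2 = 1 := by
    have := Complex.sq_norm z
    rw [h1, normSq_apply] at this
    nlinarith
  have h4 : (z ^ 2).re = z.re ^ 2 - z.im ^ 2 := by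
    rw [sq, mul_re]
    ring
  rw [h4]
  linarith

theorem integral_rg_sq (μ : Measure ℝ) [IsProbabilityMeasure μ] {w : ℂ} (hw : ‖w‖ = 1) (t : ℝ) :
    ∫ x, rg w t x ^ 2 ∂μ = (1 + (conj (w ^ 2) * charFun μ (2 * t)).re) / 2 := by
  simp only [rg_sq hw]
  rw [integral_div, integral_add (integrable_const _) (integrable_rg μ _ _), integral_rg]
  simp

/-- the sharper bound for a centred Gaussian reference law -/
theorem norm_charFun_sub_gauss_sq_le {v : ℝ≥0} (h : klDiv μ (gaussianReal 0 v) ≠ ∞) (t : ℝ) :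
    ‖charFun μ t - charFun (gaussianReal 0 v) t‖ ^ 2 ≤ (klDiv μ (gaussianReal 0 v)).toReal *
      (1 + 5 / 3 * Real.sqrt (2 * (klDiv μ (gaussianReal 0 v)).toReal)) := by
  set γ := gaussianReal 0 v with hγ
  set D := (klDiv μ γ).toReal with hD
  have hD0 : 0 ≤ D := ENNReal.toReal_nonneg
  set E := Real.sqrt (2 * D) with hE
  have hE0 : 0 ≤ E := Real.sqrt_nonneg _
  obtain ⟨w, hw, hz⟩ := exists_unit (charFun μ t - charFun γ t)
  set a := Real.exp (-(v * t ^ 2 / 2)) with ha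
  have ha0 : 0 < a := Real.exp_pos _
  have ha1 : a ≤ 1 := Real.exp_le_one_iff.2 (by
    have : 0 ≤ (v : ℝ) * t ^ 2 / 2 := by positivity
    linarith)
  have c1 : charFun γ t = (a : ℂ) := by
    rw [hγ, charFun_gaussianReal, ha]
    push_cast
    congr 1
    ring
  have c2 : charFun γ (2 * t) = ((a ^ 4 : ℝ) : ℂ) := by
    rw [hγ, charFun_gaussianReal, ha, ← Real.exp_nat_mul]
    push_cast
    congr 1
    ring
  set p := w.re with hp
  have hpq : p ^ 2 + w.im ^ 2 = 1 := by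
    have := Complex.sq_norm w
    rw [hw, normSq_apply] at this
    nlinarith
  have hp1 : |p| ≤ 1 := abs_le.2 ⟨by nlinarith [sq_nonneg w.im], by nlinarith [sq_nonneg w.im]⟩
  -- the centred test function
  set c := a * p with hc
  have hcabs : |c| ≤ 1 := by
    rw [hc, abs_mul, abs_of_pos ha0]
    nlinarith [abs_nonneg p]
  have hgm : Measurable fun x => rg w t x - c := (measurable_rg w t).sub_const c
  have hgb : ∀ x, |rg w t x - c| ≤ 2 := fun x => by
    calc |rg w t x - c| ≤ |rg w t x| + |c| := abs_sub _ _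
      _ ≤ 1 + 1 := add_le_add (abs_rg_le hw t x) hcabs
      _ = 2 := by norm_num
  have hbd : ∀ x, ‖(rg w t x - c) ^ 2‖ ≤ 4 := fun x => by
    rw [norm_pow, Real.norm_eq_abs]
    nlinarith [hgb x, abs_nonneg (rg w t x - c)]
  have isq : ∀ (ρ : Measure ℝ) [IsProbabilityMeasure ρ],
      Integrable (fun x => (rg w t x - c) ^ 2) ρ := fun ρ _ =>
    Integrable.of_bound (hgm.pow_const 2).aestronglyMeasurable 4 (ae_of_all _ hbd)
  have hq := quad_le h hgm (isq μ) (isq γ)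
  -- the integrals
  have e0 : ∀ (ρ : Measure ℝ) [IsProbabilityMeasure ρ],
      ∫ x, (rg w t x - c) ∂ρ = (conj w * charFun ρ t).re - c := by
    intro ρ _
    rw [integral_sub (integrable_rg ρ w t) (integrable_const _), integral_rg]
    simp
  have e1 : ∀ (ρ : Measure ℝ) [IsProbabilityMeasure ρ], ∫ x, (rg w t x - c) ^ 2 ∂ρ =
      (1 + (conj (w ^ 2) * charFun ρ (2 * t)).re) / 2 - 2 * c * (conj w * charFun ρ t).re +
        c ^ 2 := by
    intro ρ _
    have i1 : Integrable (fun x => rg w t x ^ 2) ρ :=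
      Integrable.of_bound ((measurable_rg w t).pow_const 2).aestronglyMeasurable 1
        (ae_of_all _ fun x => by
          rw [norm_pow, Real.norm_eq_abs]
          nlinarith [abs_rg_le hw t x, abs_nonneg (rg w t x)])
    have i2 : Integrable (fun x => 2 * c * rg w t x) ρ := (integrable_rg ρ w t).const_mul _
    have e : ∀ x, (rg w t x - c) ^ 2 = rg w t x ^ 2 - 2 * c * rg w t x + c ^ 2 := fun x => by ring
    have i3 : Integrable (fun x => rg w t x ^ 2 - 2 * c * rg w t x) ρ := i1.sub i2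
    simp only [e]
    rw [integral_add i3 (integrable_const _), integral_sub i1 i2, integral_rg_sq ρ hw,
      integral_const_mul, integral_rg]
    simp
  set Δ := ‖charFun μ t - charFun γ t‖ with hΔ
  have hΔE : Δ ≤ E := norm_charFun_sub_le h t
  have hΔ0 : 0 ≤ Δ := norm_nonneg _
  have f1 : (conj w * charFun γ t).re = c := by
    rw [c1, mul_comm, re_ofReal_mul, conj_re]
  have f2 : (conj w * charFun μ t).re = c + Δ := by
    have : (conj w * (charFun μ t - charFun γ t)).re = Δ := hz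
    rw [mul_sub, sub_re, f1] at this
    linarith
  have f3 : (conj (w ^ 2) * charFun γ (2 * t)).re = a ^ 4 * (2 * p ^ 2 - 1) := by
    rw [c2, mul_comm, re_ofReal_mul, conj_re, sq, mul_re]
    congr 1
    nlinarith
  have f4 : (conj (w ^ 2) * charFun μ (2 * t)).re ≤ a ^ 4 * (2 * p ^ 2 - 1) + E := by
    have g1 : (conj (w ^ 2) * (charFun μ (2 * t) - charFun γ (2 * t))).re ≤ E := by
      refine (re_le_norm _).trans ?_
      rw [norm_mul, RCLike.norm_conj, norm_pow, hw, one_pow, one_mul]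
      exact norm_charFun_sub_le h (2 * t)
    rw [mul_sub, sub_re, f3] at g1
    linarith
  rw [e0 μ, e0 γ, e1 μ, e1 γ, f1, f2, f3] at hq
  have g2 : (1 + a ^ 4 * (2 * p ^ 2 - 1)) / 2 - c ^ 2 ≤ 1 / 2 := by
    have : a ^ 4 * p ^ 2 ≤ a ^ 2 * p ^ 2 := by
      have : a ^ 4 ≤ a ^ 2 := pow_le_pow_of_le_one ha0.le ha1 (by norm_num)
      exact mul_le_mul_of_nonneg_right this (sq_nonneg _)
    have h4 : 0 ≤ a ^ 4 := by positivity
    rw [hc]
    nlinarith
  have g3 : -(2 * c * Δ) ≤ 2 * E := by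
    have : |c * Δ| ≤ E := by
      rw [abs_mul, abs_of_nonneg hΔ0]
      nlinarith [abs_nonneg c]
    have := (abs_le.1 this).1
    linarith
  have key : (1 + (conj (w ^ 2) * charFun μ (2 * t)).re) / 2 - 2 * c * (c + Δ) + c ^ 2 +
      2 * ((1 + a ^ 4 * (2 * p ^ 2 - 1)) / 2 - 2 * c * c + c ^ 2) ≤ 3 / 2 + 5 / 2 * E := by
    nlinarith
  have g5 : (c + Δ - c - (c - c)) ^ 2 = Δ ^ 2 := by ring
  rw [g5] at hq
  calc Δ ^ 2 ≤ 2 / 3 * D * ((1 + (conj (w ^ 2) * charFun μ (2 * t)).re) / 2 - 2 * c * (c + Δ) +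
        c ^ 2 + 2 * ((1 + a ^ 4 * (2 * p ^ 2 - 1)) / 2 - 2 * c * c + c ^ 2)) := hq
    _ ≤ 2 / 3 * D * (3 / 2 + 5 / 2 * E) := by gcongr
    _ = D * (1 + 5 / 3 * E) := by ring

/-- the bound for `D ≤ .003` -/
theorem norm_charFun_sub_gauss_le {v : ℝ≥0} (h : klDiv μ (gaussianReal 0 v) ≠ ∞)
    (h3 : (klDiv μ (gaussianReal 0 v)).toReal ≤ 3 / 1000) (t : ℝ) :
    ‖charFun μ t - charFun (gaussianReal 0 v) t‖ ≤
      107 / 100 * Real.sqrt (klDiv μ (gaussianReal 0 v)).toReal := by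
  have h1 := norm_charFun_sub_gauss_sq_le h t
  set D := (klDiv μ (gaussianReal 0 v)).toReal with hD
  have hD0 : 0 ≤ D := ENNReal.toReal_nonneg
  have h2 : Real.sqrt (2 * D) ≤ 8 / 100 := by
    rw [show (8 / 100 : ℝ) = Real.sqrt ((8 / 100) ^ 2) by
      rw [Real.sqrt_sq (by norm_num)]]
    exact Real.sqrt_le_sqrt (by norm_num; linarith)
  have h4 : ‖charFun μ t - charFun (gaussianReal 0 v) t‖ ^ 2 ≤ (107 / 100 * Real.sqrt D) ^ 2 := by
    rw [mul_pow, Real.sq_sqrt hD0]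
    calc _ ≤ D * (1 + 5 / 3 * Real.sqrt (2 * D)) := h1
      _ ≤ D * (1 + 5 / 3 * (8 / 100)) := by gcongr
      _ ≤ (107 / 100) ^ 2 * D := by nlinarith
  exact (sq_le_sq₀ (norm_nonneg _) (by positivity)).1 h4

end Pool.Agent.Lib.MP_ec2ab1_pr_h18
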