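import Mathlib
import Pool.Agent.Lib.MP_ec2ab1_pr_h18.Apriori

set_option autoImplicit false

/-!
# Divergence from a Gaussian law and differential entropy
-/

namespace Pool.Agent.Lib.MP_ec2ab1_pr_h18

open MeasureTheory ProbabilityTheory InformationTheory
open scoped NNReal ENNReal

theorem log_pdf {v : ℝ≥0} (hv : v ≠ 0) (x : ℝ) : Real.log (gaussianPDFReal 0 v x) =
    -Real.log (2 * Real.pi * v) / 2 - x ^ 2 / (2 * v) := by
  have hv' : (0 : ℝ) < v := by positivity
  have h3 : 0 < Real.sqrt (2 * Real.pi * v) := Real.sqrt_pos.2 (by positivity)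
  unfold gaussianPDFReal
  rw [Real.log_mul (inv_pos.2 h3).ne' (Real.exp_pos _).ne', Real.log_exp, Real.log_inv,
    Real.log_sqrt (by positivity), sub_zero]
  ring

variable {ν : Measure ℝ} [IsProbabilityMeasure ν]

theorem llr_G (hac : ν ≪ volume) {v : ℝ≥0} (hv : v ≠ 0) :
    llr ν (G v) =ᵐ[ν] fun x => llr ν volume x +
      (Real.log (2 * Real.pi * v) / 2 + x ^ 2 / (2 * v)) := by
  have h1 : ν ≪ G v := hac.trans (gaussianReal_absolutelyContinuous' 0 hv)
  have h2 : ν.rnDeriv (G v) * (G v).rnDeriv volume =ᵐ[volume] ν.rnDeriv volume :=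
    Measure.rnDeriv_mul_rnDeriv h1
  have h3 : (G v).rnDeriv volume =ᵐ[volume] gaussianPDF 0 v := rnDeriv_gaussianReal 0 v
  filter_upwards [hac.ae_le h2, hac.ae_le h3, Measure.rnDeriv_pos h1,
    h1.ae_le (Measure.rnDeriv_lt_top ν (G v))] with x a b c d
  rw [llr, llr, ← a, Pi.mul_apply, b, ENNReal.toReal_mul, toReal_gaussianPDF,
    Real.log_mul (ENNReal.toReal_pos c.ne' d.ne).ne' (gaussianPDFReal_pos _ _ _ hv).ne',
    log_pdf hv]
  ring

theorem integrable_quad (hmem : MemLp (fun x : ℝ => x) 2 ν) (v : ℝ≥0) :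
    Integrable (fun x : ℝ => Real.log (2 * Real.pi * v) / 2 + x ^ 2 / (2 * v)) ν :=
  (integrable_const _).add (hmem.integrable_sq.div_const _)

theorem kl_G_iff (hmem : MemLp (fun x : ℝ => x) 2 ν) {v : ℝ≥0} (hv : v ≠ 0) :
    klDiv ν (G v) ≠ ∞ ↔ ν ≪ volume ∧ Integrable (fun x => (ν.rnDeriv volume x).toReal *
      Real.log (ν.rnDeriv volume x).toReal) volume := by
  rw [klDiv_ne_top_iff]
  constructor
  · rintro ⟨h1, h2⟩
    have hac : ν ≪ volume := h1.trans (gaussianReal_absolutelyContinuous 0 hv)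
    refine ⟨hac, ?_⟩
    rw [integrable_congr (llr_G hac hv)] at h2
    refine (integrable_rnDeriv_mul_log_iff hac).2 ?_
    refine (h2.sub (integrable_quad hmem v)).congr (Filter.Eventually.of_forall fun x => ?_)
    simp only [Pi.sub_apply, add_sub_cancel_right]
  · rintro ⟨hac, h2⟩
    refine ⟨hac.trans (gaussianReal_absolutelyContinuous' 0 hv), ?_⟩
    rw [integrable_congr (llr_G hac hv)]
    exact ((integrable_rnDeriv_mul_log_iff hac).1 h2).add (integrable_quad hmem v)

theorem kl_G_toReal (hmem : MemLp (fun x : ℝ => x) 2 ν) {v : ℝ≥0} (hv : v ≠ 0)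
    (hac : ν ≪ volume) (hint : Integrable (fun x => (ν.rnDeriv volume x).toReal *
      Real.log (ν.rnDeriv volume x).toReal) volume) :
    (klDiv ν (G v)).toReal = (∫ x, (ν.rnDeriv volume x).toReal *
      Real.log (ν.rnDeriv volume x).toReal) + (Real.log (2 * Real.pi * v) / 2 +
        (∫ x, x ^ 2 ∂ν) / (2 * v)) := by
  have h1 : ν ≪ G v := hac.trans (gaussianReal_absolutelyContinuous' 0 hv)
  have h2 : Integrable (llr ν volume) ν := (integrable_rnDeriv_mul_log_iff hac).1 hint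
  rw [toReal_klDiv_of_measure_eq h1 (by simp), integral_congr_ae (llr_G hac hv),
    integral_add h2 (integrable_quad hmem v),
    integral_add (integrable_const _) (hmem.integrable_sq.div_const _)]
  have h3 : ∫ x, llr ν volume x ∂ν = ∫ x, (ν.rnDeriv volume x).toReal *
      Real.log (ν.rnDeriv volume x).toReal := (integral_rnDeriv_mul_log hac).symm
  have h4 : ∫ x : ℝ, x ^ 2 / (2 * (v : ℝ)) ∂ν = (∫ x : ℝ, x ^ 2 ∂ν) / (2 * v) :=
    integral_div (2 * (v : ℝ)) fun x : ℝ => x ^ 2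
  have h5 : ∫ _ : ℝ, Real.log (2 * Real.pi * v) / 2 ∂ν = Real.log (2 * Real.pi * v) / 2 := by
    simp
  rw [h3, h4, h5]

end Pool.Agent.Lib.MP_ec2ab1_pr_h18
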